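import Pool.Agent.H56.KAF.Defs
import Pool.Agent.H32.Dense.Split

/-!
# Chain rules and choices for the application of the one context theorem

`cha`: fixed rows, contexts running (chain A). `chb`: fixed velocity block, contexts running
(chain B). `acc`: accounting of one block of rows along a path. `uni`: union of the bad events of
the single contexts. `fub`: choice of one context for both chains.
-/

set_option autoImplicit false

namespace Pool.OCH

open Finset Real
open Pool.Agent.H49.Ent Pool.Agent.H32.Dense Pool.STK Pool.KAF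

section chains

variable {Ω τ : Type} [Fintype Ω] {p : Ω → ℝ}

/-- Mutual information is symmetric. -/
theorem mi_comm {S T U : Type} (hp : ∀ ω, 0 ≤ p ω) (X : Ω → S) (Y : Ω → T) (Z : Ω → U) :
    CH p X Z - CH p X (fun ω => (Y ω, Z ω)) = CH p Y Z - CH p Y (fun ω => (X ω, Z ω)) := by
  have h1 := CH_chain hp X Y Z
  have h2 := CH_chain hp Y X Z
  have h3 : CH p (fun ω => (X ω, Y ω)) Z = CH p (fun ω => (Y ω, X ω)) Z := by
    refine CH_congr hp ?_ ?_ (fun _ _ _ _ h => h) (fun _ _ _ _ h => h) <;>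
    · intro ω ω' _ _ h
      simp only [Prod.mk.injEq] at h ⊢
      tauto
  linarith

/-- **Chain A.** The rows are fixed, the contexts become finer; the variables `ν j` agree up to
functions of the finer context and errors of entropy `h j`. -/
theorem cha {β V N : ℕ → Type} (hp : ∀ ω, 0 ≤ p ω) (n : ℕ) (b : ∀ j, Ω → β j)
    (v : ∀ j, Ω → V j) (ν : ∀ j, Ω → N j) (t : Ω → τ) (h : ℕ → ℝ)
    (hb : ∀ j < n, Det p (fun ω => (b (j + 1) ω, t ω)) (b j))
    (hv : ∀ j < n, Det p (fun ω => (b (j + 1) ω, t ω)) (v j))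
    (hν : ∀ j < n, CH p (ν (j + 1)) (fun ω => (ν j ω, (b (j + 1) ω, t ω))) ≤ h j) :
    ∑ j ∈ range n, (CH p (ν j) (fun ω => (b j ω, t ω)) -
      CH p (ν j) (fun ω => (v j ω, (b j ω, t ω)))) ≤
      CH p (ν 0) (fun ω => (b 0 ω, t ω)) - CH p (ν n) (fun ω => (b n ω, t ω)) +
        ∑ j ∈ range n, h j := by
  have step : ∀ j ∈ range n, (CH p (ν j) (fun ω => (b j ω, t ω)) -
      CH p (ν j) (fun ω => (v j ω, (b j ω, t ω)))) ≤
      -(CH p (ν (j + 1)) (fun ω => (b (j + 1) ω, t ω)) - CH p (ν j) (fun ω => (b j ω, t ω))) +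
        h j := by
    intro j hj
    have hj' := Finset.mem_range.mp hj
    have h1 : CH p (ν j) (fun ω => (b (j + 1) ω, t ω)) ≤
        CH p (ν j) (fun ω => (v j ω, (b j ω, t ω))) := by
      refine CH_mono_cond hp ?_
      intro ω ω' a a' e
      have e1 := hb j hj' ω ω' a a' e
      have e2 := hv j hj' ω ω' a a' e
      have e3 := (Prod.ext_iff.mp e).2
      simp only [Prod.mk.injEq] at e3 ⊢
      exact ⟨e2, e1, e3⟩
    have h2 : CH p (ν (j + 1)) (fun ω => (b (j + 1) ω, t ω)) ≤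
        CH p (ν j) (fun ω => (b (j + 1) ω, t ω)) +
          CH p (ν (j + 1)) (fun ω => (ν j ω, (b (j + 1) ω, t ω))) :=
      CH_le_add hp _ _ _
    have h6 := hν j hj'
    linarith
  refine (Finset.sum_le_sum step).trans ?_
  rw [Finset.sum_add_distrib, Finset.sum_neg_distrib,
    Finset.sum_range_sub (fun j => CH p (ν j) (fun ω => (b j ω, t ω)))]
  linarith

/-- Chain A for integers. -/
theorem cha_int {β V : ℕ → Type} (hp : IsLaw p) (n : ℕ) (b : ∀ j, Ω → β j)
    (v : ∀ j, Ω → V j) (ν : ℕ → Ω → ℤ) (t : Ω → τ) (φ : ∀ j, β j → τ → ℤ) (K : ℝ) (hK : 0 ≤ K)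
    (hb : ∀ j < n, Det p (fun ω => (b (j + 1) ω, t ω)) (b j))
    (hv : ∀ j < n, Det p (fun ω => (b (j + 1) ω, t ω)) (v j))
    (hν : ∀ j < n, ∀ ω, 0 < p ω →
      |((ν (j + 1) ω - ν j ω - φ (j + 1) (b (j + 1) ω) (t ω) : ℤ) : ℝ)| ≤ K) :
    ∑ j ∈ range n, (CH p (ν j) (fun ω => (b j ω, t ω)) -
      CH p (ν j) (fun ω => (v j ω, (b j ω, t ω)))) ≤
      CH p (ν 0) (fun ω => (b 0 ω, t ω)) - CH p (ν n) (fun ω => (b n ω, t ω)) +
        n * Real.log (4 * K + 1) := by
  have h1 := cha hp.nonneg n b v ν t (fun _ => Real.log (4 * K + 1)) hb hv (by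
    intro j hj
    have h2 := CH_le_int hp.nonneg hp.sum_one (ν (j + 1))
      (fun ω => (ν j ω, (b (j + 1) ω, t ω))) (fun _ => 2 * K) (by
      intro ω ω' a a' e
      simp only [Prod.mk.injEq] at e
      have e1 := hν j hj ω a
      have e2 := hν j hj ω' a'
      rw [← e.1, ← e.2.1, ← e.2.2] at e2
      have e3 : ((ν (j + 1) ω - ν (j + 1) ω' : ℤ) : ℝ) =
          ((ν (j + 1) ω - ν j ω - φ (j + 1) (b (j + 1) ω) (t ω) : ℤ) : ℝ) -
          ((ν (j + 1) ω' - ν j ω - φ (j + 1) (b (j + 1) ω) (t ω) : ℤ) : ℝ) := by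
        push_cast
        ring
      rw [e3]
      have e4 := abs_sub (((ν (j + 1) ω - ν j ω - φ (j + 1) (b (j + 1) ω) (t ω) : ℤ) : ℝ))
        (((ν (j + 1) ω' - ν j ω - φ (j + 1) (b (j + 1) ω) (t ω) : ℤ) : ℝ))
      linarith)
    rw [Ex_const hp.sum_one] at h2
    have e5 : 2 * (2 * K) + 1 = 4 * K + 1 := by ring
    rw [e5] at h2
    exact h2)
  rw [Finset.sum_const, Finset.card_range, nsmul_eq_mul] at h1
  exact h1

/-- **Chain B.** The block is fixed, the contexts become finer. -/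
theorem chb {γ Υ : ℕ → Type} {O : Type} (hp : ∀ ω, 0 ≤ p ω) (n : ℕ) (c : ∀ i, Ω → γ i)
    (y : ∀ i, Ω → Υ i) (om : Ω → O)
    (hc : ∀ i < n, Det p (c (i + 1)) (c i)) (hy : ∀ i < n, Det p (c (i + 1)) (y i)) :
    ∑ i ∈ range n, (CH p om (c i) - CH p om (fun ω => (y i ω, c i ω))) ≤
      CH p om (c 0) - CH p om (c n) := by
  have step : ∀ i ∈ range n, (CH p om (c i) - CH p om (fun ω => (y i ω, c i ω))) ≤
      -(CH p om (c (i + 1)) - CH p om (c i)) := by
    intro i hi
    have hi' := Finset.mem_range.mp hi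
    have h1 : CH p om (c (i + 1)) ≤ CH p om (fun ω => (y i ω, c i ω)) :=
      CH_mono_cond hp fun ω ω' a a' e => Prod.ext (hy i hi' ω ω' a a' e) (hc i hi' ω ω' a a' e)
    linarith
  refine (Finset.sum_le_sum step).trans ?_
  rw [Finset.sum_neg_distrib, Finset.sum_range_sub (fun i => CH p om (c i))]
  linarith

/-- Chain B, symmetric form. -/
theorem chb' {γ Υ : ℕ → Type} {O : Type} (hp : ∀ ω, 0 ≤ p ω) (n : ℕ) (c : ∀ i, Ω → γ i)
    (y : ∀ i, Ω → Υ i) (om : Ω → O)
    (hc : ∀ i < n, Det p (c (i + 1)) (c i)) (hy : ∀ i < n, Det p (c (i + 1)) (y i)) :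
    ∑ i ∈ range n, (CH p (y i) (c i) - CH p (y i) (fun ω => (om ω, c i ω))) ≤
      CH p om (c 0) - CH p om (c n) := by
  have h1 := chb hp n c y om hc hy
  refine le_trans (le_of_eq (Finset.sum_congr rfl fun i _ => ?_)) h1
  exact mi_comm hp (y i) om (c i)

/-- **Accounting of one block along a path.** `x`, `x'` coarse and fine position, `B`, `B'` coarse
and fine box, `N` the block of normal rows, `W1` the tangential rows between the boxes, `W2` the
tangential rows of the fine position given the fine box. -/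
theorem acc {A₁ A₂ A₃ A₄ A₅ A₆ A₇ : Type} (hp : ∀ ω, 0 ≤ p ω) (x : Ω → A₁) (x' : Ω → A₂)
    (B : Ω → A₃) (B' : Ω → A₄) (N : Ω → A₅) (W1 : Ω → A₆) (W2 : Ω → A₇) (t : Ω → τ)
    (h2 : Det p (fun ω => (x' ω, t ω)) (fun ω => (B' ω, W2 ω)))
    (h3 : Det p (fun ω => (B' ω, t ω)) (fun ω => (B ω, (N ω, W1 ω)))) :
    CH p N (fun ω => (B ω, t ω)) + CH p W1 (fun ω => (N ω, (B ω, t ω))) +
      CH p W2 (fun ω => (B' ω, t ω)) ≤
      CH p x' (fun ω => (x ω, t ω)) + CH p x (fun ω => (B ω, t ω)) := by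
  have e1 := CH_le_add hp x' x t
  have e2 := CH_le_add hp x B t
  have e3 : CH p (fun ω => (W2 ω, B' ω)) t ≤ CH p x' t := CH_mono_left hp (by
    intro ω ω' a a' e
    have e4 := Prod.ext_iff.mp (h2 ω ω' a a' e)
    exact Prod.ext e4.2 e4.1)
  have e4 : CH p (fun ω => (W1 ω, (N ω, B ω))) t ≤ CH p B' t := CH_mono_left hp (by
    intro ω ω' a a' e
    have e5 := h3 ω ω' a a' e
    simp only [Prod.mk.injEq] at e5 ⊢
    tauto)
  have e5 := CH_chain hp W2 B' t
  have e6 := CH_chain hp W1 (fun ω => (N ω, B ω)) t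
  have e7 := CH_chain hp N B t
  have e8 : CH p W1 (fun ω => ((N ω, B ω), t ω)) = CH p W1 (fun ω => (N ω, (B ω, t ω))) := by
    refine CH_congr hp (fun _ _ _ _ h => (Prod.ext_iff.mp h).1)
      (fun _ _ _ _ h => (Prod.ext_iff.mp h).1) ?_ ?_ <;>
    · intro ω ω' _ _ h
      simp only [Prod.mk.injEq] at h ⊢
      tauto
  linarith

end chains

section choice

variable {Ω : Type} [Fintype Ω] {p : Ω → ℝ}

open Classical in
/-- The law conditioned on a label and on an event depending on the label. -/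
theorem cond_rs {β : Type} (hp : IsLaw p) (b : Ω → β) (A : Set Ω) (z : β) (E : Set Ω)
    (hA : ∀ ω, b ω = z → (ω ∈ A ↔ ω ∈ E)) (hz : 0 < law p b z)
    (hE : 0 < Pr (Pool.Agent.H49.Ent.cond p b z) E) :
    Pool.Agent.H49.Ent.cond (rs p A) b z = rs (Pool.Agent.H49.Ent.cond p b z) E := by
  funext ω
  have hPE : Pr (Pool.Agent.H49.Ent.cond p b z) E =
      (∑ ω', if b ω' = z ∧ ω' ∈ A then p ω' else 0) / law p b z := by
    unfold Pr
    rw [law_cond]
    congr 1
    unfold Pool.Agent.H49.Ent.law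
    refine Finset.sum_congr rfl fun ω' _ => ?_
    by_cases h1 : b ω' = z
    · by_cases h2 : ω' ∈ A
      · have h3 := (hA ω' h1).mp h2
        simp [h1, h2, h3]
      · have h3 : ω' ∉ E := fun h => h2 ((hA ω' h1).mpr h)
        simp [h1, h2, h3]
    · simp [h1]
  set q := ∑ ω', if b ω' = z ∧ ω' ∈ A then p ω' else 0 with hq
  have hq0 : 0 < q := by
    rw [hPE] at hE
    exact (div_pos_iff_of_pos_right hz).mp hE
  have hA0 : 0 < law p (fun ω => ω ∈ A) True := by
    refine lt_of_lt_of_le hq0 ?_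
    unfold Pool.Agent.H49.Ent.law
    refine Finset.sum_le_sum fun ω' _ => ?_
    by_cases h2 : ω' ∈ A
    · by_cases h1 : b ω' = z
      · simp [h1, h2]
      · simp [h1, h2, hp.nonneg ω']
    · simp [h2]
  have hlaw : law (rs p A) b z = q / law p (fun ω => ω ∈ A) True := by
    unfold rs
    rw [law_cond]
    congr 1
    unfold Pool.Agent.H49.Ent.law
    refine Finset.sum_congr rfl fun ω' _ => ?_
    by_cases h1 : b ω' = z <;> by_cases h2 : ω' ∈ A <;> simp [h1, h2]
  unfold rs at hlaw ⊢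
  unfold Pool.Agent.H49.Ent.cond at hlaw ⊢
  rw [hlaw]
  unfold Pr at hPE
  unfold Pool.Agent.H49.Ent.cond at hPE
  rw [hPE]
  by_cases h1 : b ω = z
  · by_cases h2 : ω ∈ A
    · have h3 := (hA ω h1).mp h2
      simp only [h1, h2, h3, if_true]
      field_simp
    · have h3 : ω ∉ E := fun h => h2 ((hA ω h1).mpr h)
      simp [h1, h2, h3]
  · simp [h1]

/-- Probability of an event as a mean over the values of a label. -/
theorem Pr_split {β : Type} [DecidableEq β] (hp : IsLaw p) (b : Ω → β) (A : Set Ω) :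
    Pr p A = ∑ z ∈ univ.image b, law p b z * Pr (Pool.Agent.H49.Ent.cond p b z) A := by
  classical
  have h1 : ∀ q : Ω → ℝ, Pr q A = Ex q (A.indicator fun _ => (1 : ℝ)) := by
    intro q
    unfold Pr Pool.Agent.H49.Ent.law Ex
    refine Finset.sum_congr rfl fun ω _ => ?_
    by_cases h : ω ∈ A <;> simp [h]
  rw [h1, Ex_split hp.nonneg _ b]
  refine Finset.sum_congr rfl fun z _ => ?_
  rw [h1]

theorem isLaw_rs (hp : IsLaw p) {A : Set Ω} (hA : 0 < Pr p A) : IsLaw (rs p A) :=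
  ⟨fun ω => cond_nonneg hp.nonneg _ _ ω, sum_cond p _ (ne_of_gt hA)⟩

/-- **Union of the bad events of the single contexts.** If for many values of the label there is
an event of probability `π₀` on which the entropy of a block is large, then for one block there is
an event of probability at least `π₀ β₀ / card R` on which its entropy given the label is
large. -/
theorem uni {β R S T : Type} [Fintype R] (hp : IsLaw p) (b : Ω → β)
    (good : Set β) (E : β → Set Ω) (r : β → R) (Y : R → Ω → S) (C : R → Ω → T) (h π₀ β₀ : ℝ)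
    (hπ : 0 < π₀) (hβ : 0 < β₀)
    (hbad : ∀ z ∈ good, 0 < law p b z → π₀ ≤ Pr (Pool.Agent.H49.Ent.cond p b z) (E z) ∧
      h ≤ CH (rs (Pool.Agent.H49.Ent.cond p b z) (E z)) (Y (r z)) (C (r z)))
    (hgood : β₀ ≤ Pr p {ω | b ω ∈ good}) :
    ∃ (r₀ : R) (A : Set Ω), π₀ * β₀ / Fintype.card R ≤ Pr p A ∧
      h ≤ CH (rs p A) (Y r₀) (fun ω => (C r₀ ω, b ω)) := by
  classical
  have hp0 := hp.nonneg
  have hPr : ∀ A : Set Ω, Pr p A = ∑ ω, if ω ∈ A then p ω else 0 := by
    intro A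
    unfold Pr Pool.Agent.H49.Ent.law
    refine Finset.sum_congr rfl fun ω _ => ?_
    simp
  -- the most popular block
  have hsum : ∑ r₀ : R, Pr p {ω | b ω ∈ good ∧ r (b ω) = r₀} = Pr p {ω | b ω ∈ good} := by
    simp_rw [hPr]
    rw [Finset.sum_comm]
    refine Finset.sum_congr rfl fun ω _ => ?_
    by_cases h1 : b ω ∈ good
    · simp [h1]
    · simp [h1]
  have hR : Nonempty R := by
    by_contra hcon
    rw [not_nonempty_iff] at hcon
    rw [Finset.univ_eq_empty, Finset.sum_empty] at hsum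
    linarith
  have hcard : (0 : ℝ) < Fintype.card R := by exact_mod_cast Fintype.card_pos
  obtain ⟨r₀, _, hr₀⟩ : ∃ r₀ ∈ (univ : Finset R), β₀ / Fintype.card R ≤
      Pr p {ω | b ω ∈ good ∧ r (b ω) = r₀} := by
    refine Finset.exists_le_of_sum_le Finset.univ_nonempty ?_
    rw [hsum, Finset.sum_const, Finset.card_univ, nsmul_eq_mul, mul_div_cancel₀ _ hcard.ne']
    exact hgood
  set A : Set Ω := {ω | b ω ∈ good ∧ r (b ω) = r₀ ∧ ω ∈ E (b ω)} with hA
  have hcondA : ∀ z ∈ good, r z = r₀ →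
      Pr (Pool.Agent.H49.Ent.cond p b z) A = Pr (Pool.Agent.H49.Ent.cond p b z) (E z) := by
    intro z hz hrz
    unfold Pr Pool.Agent.H49.Ent.law
    refine Finset.sum_congr rfl fun ω _ => ?_
    by_cases h1 : b ω = z
    · have h2 : (ω ∈ A) = (ω ∈ E z) := by
        simp only [hA, Set.mem_setOf_eq, h1, hz, hrz, true_and]
      by_cases h3 : ω ∈ E z
      · rw [if_pos (eq_true (h2.mpr h3)), if_pos (eq_true h3)]
      · have h4 : ¬ ω ∈ A := by
          rw [h2]
          exact h3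
        rw [if_neg, if_neg]
        · intro h5
          exact h3 (of_eq_true h5)
        · intro h5
          exact h4 (of_eq_true h5)
    · have h2 : Pool.Agent.H49.Ent.cond p b z ω = 0 := by
        unfold Pool.Agent.H49.Ent.cond
        rw [if_neg h1]
      rw [h2]
      simp
  have hPA : π₀ * β₀ / Fintype.card R ≤ Pr p A := by
    have h1 : π₀ * Pr p {ω | b ω ∈ good ∧ r (b ω) = r₀} ≤ Pr p A := by
      rw [Pr_split hp b A, Pr_split hp b, Finset.mul_sum]
      refine Finset.sum_le_sum fun z _ => ?_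
      rcases (law_nonneg hp0 b z).eq_or_lt with h0 | h0
      · rw [← h0]
        simp
      · have hl : IsLaw (Pool.Agent.H49.Ent.cond p b z) :=
          ⟨fun ω => cond_nonneg hp0 _ _ ω, sum_cond p b h0.ne'⟩
        by_cases h2 : z ∈ good ∧ r z = r₀
        · have h3 := (hbad z h2.1 h0).1
          rw [hcondA z h2.1 h2.2]
          have h4 : Pr (Pool.Agent.H49.Ent.cond p b z) {ω | b ω ∈ good ∧ r (b ω) = r₀} ≤ 1 := by
            rw [← hl.sum_one]
            unfold Pr
            exact law_le_total hl.nonneg _ _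
          have h5 := mul_le_mul h4 h3 hπ.le zero_le_one
          have h6 := mul_le_mul_of_nonneg_left h5 h0.le
          linarith
        · have h3 : Pr (Pool.Agent.H49.Ent.cond p b z) {ω | b ω ∈ good ∧ r (b ω) = r₀} = 0 := by
            unfold Pr Pool.Agent.H49.Ent.law
            refine Finset.sum_eq_zero fun ω _ => ?_
            by_cases h4 : b ω = z
            · rw [if_neg]
              rw [eq_iff_iff]
              intro h5
              have h6 := h5.mpr trivial
              simp only [Set.mem_setOf_eq, h4] at h6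
              exact h2 h6
            · have h5 : Pool.Agent.H49.Ent.cond p b z ω = 0 := by
                unfold Pool.Agent.H49.Ent.cond
                rw [if_neg h4]
              rw [h5]
              simp
          rw [h3, mul_zero, mul_zero]
          exact mul_nonneg h0.le (law_nonneg hl.nonneg _ _)
    refine le_trans ?_ h1
    rw [mul_div_assoc]
    exact mul_le_mul_of_nonneg_left hr₀ hπ.le
  have hA0 : 0 < Pr p A := lt_of_lt_of_le (by positivity) hPA
  have hlA := isLaw_rs hp hA0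
  refine ⟨r₀, A, hPA, ?_⟩
  rw [Pool.Agent.H32.Dense.CH_split hlA.nonneg (Y r₀) (C r₀) b]
  have h1 : ∀ z ∈ univ.image b, law (rs p A) b z * h ≤
      law (rs p A) b z * CH (Pool.Agent.H49.Ent.cond (rs p A) b z) (Y r₀) (C r₀) := by
    intro z _
    rcases (law_nonneg hlA.nonneg b z).eq_or_lt with h0 | h0
    · rw [← h0, zero_mul, zero_mul]
    · refine mul_le_mul_of_nonneg_left ?_ h0.le
      obtain ⟨ω, hω, hbω⟩ : ∃ ω, 0 < rs p A ω ∧ b ω = z := by
        by_contra hcon
        push Not at hcon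
        have : law (rs p A) b z = 0 := by
          unfold Pool.Agent.H49.Ent.law
          refine Finset.sum_eq_zero fun ω _ => ?_
          split_ifs with h
          · exact le_antisymm (not_lt.mp fun h' => hcon ω h' h) (hlA.nonneg ω)
          · rfl
        rw [this] at h0
        exact lt_irrefl _ h0
      obtain ⟨hω1, hω2⟩ := (cond_pos_iff hp0 (fun ω => ω ∈ A) True ω).mp hω
      have hω3 : ω ∈ A := by
        rw [hω2]
        trivial
      obtain ⟨g1, g2, g3⟩ := hω3
      rw [hbω] at g1 g2 g3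
      have hz : 0 < law p b z := by
        rw [← hbω]
        exact law_pos hp0 b hω1
      obtain ⟨k1, k2⟩ := hbad z g1 hz
      have hc := cond_rs hp b A z (E z) (by
        intro ω' hω'
        simp only [hA, Set.mem_setOf_eq, hω', g1, g2, true_and]) hz (lt_of_lt_of_le hπ k1)
      rw [hc]
      rw [g2] at k2
      exact k2
  have h2 := Finset.sum_le_sum h1
  rw [← Finset.sum_mul, sum_law, hlA.sum_one, one_mul] at h2
  exact h2

/-- **Choice of one context**, good for chain A (`f₁`, rows fixed) and for chain B (`f₂`, velocity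
block fixed). -/
theorem fub (Wn Pn Act : Finset ℕ) (g : ℕ → ℕ) (f₁ f₂ : ℕ → ℕ → ℝ) (S₁ S₂ l₁ l₂ : ℝ)
    (h01 : ∀ w P, 0 ≤ f₁ w P) (hl₁ : 0 ≤ l₁) (hl₂ : 0 ≤ l₂) (hW : Wn.Nonempty)
    (hA : Act.Nonempty) (hP : ∀ w ∈ Wn, ∀ q ∈ Act, q + g w ∈ Pn)
    (h1 : ∀ P ∈ Pn, ∑ w ∈ Wn, f₁ w P ≤ S₁) (h2 : ∀ q ∈ Act, ∑ w ∈ Wn, f₂ w q ≤ S₂) :
    ∃ q ∈ Act, ∃ w ∈ Wn, (l₁ * f₁ w (q + g w) + l₂ * f₂ w q) * (Act.card * Wn.card) ≤
      l₁ * (Pn.card * S₁) + l₂ * (Act.card * S₂) := by
  classical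
  have e1 : ∑ c ∈ Act ×ˢ Wn, f₁ c.2 (c.1 + g c.2) ≤ Pn.card * S₁ := by
    rw [Finset.sum_product_right]
    have e2 : ∀ w ∈ Wn, ∑ q ∈ Act, f₁ w (q + g w) ≤ ∑ P ∈ Pn, f₁ w P := by
      intro w hw
      have e3 : ∑ q ∈ Act, f₁ w (q + g w) = ∑ P ∈ Act.image (fun q => q + g w), f₁ w P := by
        rw [Finset.sum_image]
        intro x _ y _ hxy
        have : x + g w = y + g w := hxy
        omega
      rw [e3]
      refine Finset.sum_le_sum_of_subset_of_nonneg ?_ (fun P _ _ => h01 w P)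
      intro P hP'
      obtain ⟨q, hq, rfl⟩ := Finset.mem_image.mp hP'
      exact hP w hw q hq
    refine (Finset.sum_le_sum e2).trans ?_
    rw [Finset.sum_comm]
    refine (Finset.sum_le_sum h1).trans ?_
    rw [Finset.sum_const, nsmul_eq_mul]
  have e2 : ∑ c ∈ Act ×ˢ Wn, f₂ c.2 c.1 ≤ Act.card * S₂ := by
    rw [Finset.sum_product]
    refine (Finset.sum_le_sum h2).trans ?_
    rw [Finset.sum_const, nsmul_eq_mul]
  have e3 : ∑ c ∈ Act ×ˢ Wn, (l₁ * f₁ c.2 (c.1 + g c.2) + l₂ * f₂ c.2 c.1) ≤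
      l₁ * (Pn.card * S₁) + l₂ * (Act.card * S₂) := by
    rw [Finset.sum_add_distrib, ← Finset.mul_sum, ← Finset.mul_sum]
    exact add_le_add (mul_le_mul_of_nonneg_left e1 hl₁) (mul_le_mul_of_nonneg_left e2 hl₂)
  have hne : (Act ×ˢ Wn).Nonempty := hA.product hW
  obtain ⟨c, hc, hc'⟩ := Finset.exists_min_image (Act ×ˢ Wn)
    (fun c => l₁ * f₁ c.2 (c.1 + g c.2) + l₂ * f₂ c.2 c.1) hne
  obtain ⟨hc1, hc2⟩ := Finset.mem_product.mp hc
  refine ⟨c.1, hc1, c.2, hc2, ?_⟩
  have e4 := Finset.card_nsmul_le_sum (Act ×ˢ Wn)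
    (fun c => l₁ * f₁ c.2 (c.1 + g c.2) + l₂ * f₂ c.2 c.1) _ hc'
  rw [nsmul_eq_mul, Finset.card_product] at e4
  push_cast at e4
  linarith

end choice

end Pool.OCH
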